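import Mathlib

/-
MP_d5a1e1_nt, question Q1 (Erdős–Turán, order `h`): partial result `TranslateRecurrence`.

Let `h ≥ 2` and let `r_{A,h}` be bounded (`A` an asymptotic basis of order `h`, or only
`|A ∩ [0, N]| ≥ (c N)^{1/h}`).  The theorem says that `A` cannot resemble the union of a few far apart
translates of its own initial segments, at any scale for the exact version and in any long window of
scales for the approximate version.  For finite `B` let `h(B ∪ {0})` be the set of the sums of `h`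
elements of `B ∪ {0}`.

* (exact) If `A ≠ ∅` and for some `ρ > 1` there are arbitrarily large `L` with a finite set `B` of
  shifts (`[0, L]` and its translates by the elements of `B` are disjoint) and a `t` such that
  `ρ |h(B ∪ {0})| ≤ (t + 1)^h` and every `a ≤ L` of `A` has at least `t` of its translates `a + b`
  (`b ∈ B`) in `A`, then `r_{A,h}` is unbounded.
* (approximate) For all `ρ > 1`, `C`, `s` a bounded `r_{A,h}` gives `ε > 0` and `M` such that each
  window `[X, M X]` (`X` large) contains an `L` for which all such `B` with `|B| ≤ s` and `B ⊆ [0, C L]`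
  fail for at least the proportion `ε` of the elements `a ≤ L` of `A`.
* (one translate) For each `s` with `binom(h + s, s) < 2^h` (always `s = 1`) this holds with `t = 1`:
  each window contains an `L` such that for all `B` with `|B| ≤ s` as above, a positive proportion of
  the elements `a ≤ L` of `A` has no translate in `A`.  With `s = 1`: for every shift `m ∈ (L, C L]`
  a positive proportion of the `a ∈ A ∩ [0, L]` satisfies `a + m ∉ A`.

The idea: if a finite `T ⊆ A` has `|T|^h ≥ ρ^i |hT|` and `B` is as above, then the union of `T` and the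
translates of its elements that belong to `A` satisfies the same with `i + 1`, because
`|h(T + (B ∪ {0}))| ≤ |hT| |h(B ∪ {0})|`; and `|T|^h ≤ h^h K |hT|` for all finite `T ⊆ A` when
`r_{A,h} ≤ K`.  In the approximate version the scales `L_{i+1} = (C + 1) L_i` are used, and an element
`x ∈ A` all of whose relevant translates are good is found by counting.
-/

set_option autoImplicit false

namespace Pool.Agent.Results.MP_d5a1e1_nt.TranslateRecurrence

open Finset

/-- `r_{A,h}(n)`: the number of the multisets of `h` elements of `A` with sum `n`. -/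
noncomputable def rep (A : Set ℕ) (h n : ℕ) : ℕ :=
  Set.ncard {s : Multiset ℕ | Multiset.card s = h ∧ (∀ a ∈ s, a ∈ A) ∧ s.sum = n}

/-- `A` is an asymptotic basis of order `h`. -/
def IsBasis (A : Set ℕ) (h : ℕ) : Prop :=
  ∃ n₀ : ℕ, ∀ n, n₀ ≤ n → ∃ s : Multiset ℕ, Multiset.card s = h ∧ (∀ a ∈ s, a ∈ A) ∧ s.sum = n

open Classical in
/-- The number of the elements of `A` in `[0, N]`. -/
noncomputable def cnt (A : Set ℕ) (N : ℕ) : ℕ := ((range (N + 1)).filter (· ∈ A)).card

/-- The set of all sums of `h` elements of `B` (repetitions allowed). -/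
def hsum (h : ℕ) (B : Finset ℕ) : Finset ℕ :=
  (Fintype.piFinset fun _ : Fin h => B).image (fun f => ∑ i, f i)

open Classical in
/-- The number of the `b ∈ B` with `a + b ∈ A`. -/
noncomputable def hits (A : Set ℕ) (B : Finset ℕ) (a : ℕ) : ℕ := (B.filter (fun b => a + b ∈ A)).card

open Classical in
/-- The number of the elements `a ≤ L` of `A` for which less than `t` of the sums `a + b`, `b ∈ B`,
belong to `A`. -/
noncomputable def fails (A : Set ℕ) (B : Finset ℕ) (t L : ℕ) : ℕ :=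
  ((range (L + 1)).filter (fun a => a ∈ A ∧ hits A B a < t)).card

/-- The interval `[0, L]` and its translates by the elements of `B` are pairwise disjoint. -/
def Apart (L : ℕ) (B : Finset ℕ) : Prop :=
  (∀ b ∈ B, L < b) ∧ ∀ b ∈ B, ∀ b' ∈ B, b < b' → b + L < b'

theorem rep_finite (A : Set ℕ) (h n : ℕ) :
    {s : Multiset ℕ | Multiset.card s = h ∧ (∀ a ∈ s, a ∈ A) ∧ s.sum = n}.Finite := by
  classical
  apply Set.Finite.subset ((h • (range (n + 1)).val).powerset.toFinset.finite_toSet)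
  rintro s ⟨h1, _, h3⟩
  rw [Finset.mem_coe, Multiset.mem_toFinset, Multiset.mem_powerset, Multiset.le_iff_count]
  intro a
  rw [Multiset.count_nsmul]
  by_cases ha : a ∈ s
  · have h4 : a ≤ n := by
      rw [← h3]
      exact Multiset.single_le_sum (fun x _ => Nat.zero_le x) a ha
    have h5 : Multiset.count a (range (n + 1)).val = 1 :=
      Multiset.count_eq_one_of_mem (range (n + 1)).nodup (by
        rw [Finset.mem_val, mem_range]; omega)
    rw [h5, mul_one, ← h1]
    exact Multiset.count_le_card a s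
  · rw [Multiset.count_eq_zero_of_notMem ha]
    exact Nat.zero_le _

/-- the multiset of the values of `f` -/
def vals {h : ℕ} (f : Fin h → ℕ) : Multiset ℕ := (univ : Finset (Fin h)).val.map f

theorem card_vals {h : ℕ} (f : Fin h → ℕ) : Multiset.card (vals f) = h := by
  simp [vals]

theorem sum_vals {h : ℕ} (f : Fin h → ℕ) : (vals f).sum = ∑ i, f i := rfl

theorem mem_vals {h : ℕ} (f : Fin h → ℕ) (a : ℕ) : a ∈ vals f ↔ ∃ i, f i = a := by
  simp [vals]

theorem pig {A : Set ℕ} {h K : ℕ} (hK : ∀ n, rep A h n ≤ K) (T : Finset ℕ) (hT : ∀ a ∈ T, a ∈ A) :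
    T.card ^ h ≤ h ^ h * (K * (hsum h T).card) := by
  classical
  set F := Fintype.piFinset fun _ : Fin h => T with hF
  have hFc : F.card = T.card ^ h := by
    rw [hF, Fintype.card_piFinset, prod_const, card_univ, Fintype.card_fin]
  have h1 : F.card ≤ h ^ h * (F.image vals).card := by
    apply card_le_mul_card_image
    intro m hm
    obtain ⟨g, _, hg⟩ := mem_image.1 hm
    have h2 : m.toFinset.card ≤ h := by
      refine (Multiset.toFinset_card_le m).trans ?_
      rw [← hg, card_vals]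
    refine le_trans (card_le_card (t := Fintype.piFinset fun _ : Fin h => m.toFinset) ?_) ?_
    · intro f hf
      rw [mem_filter] at hf
      rw [Fintype.mem_piFinset]
      intro i
      rw [Multiset.mem_toFinset, ← hf.2, mem_vals]
      exact ⟨i, rfl⟩
    · rw [Fintype.card_piFinset, prod_const, card_univ, Fintype.card_fin]
      exact Nat.pow_le_pow_left h2 h
  have h3 : (F.image vals).card ≤ K * ((F.image vals).image Multiset.sum).card := by
    apply card_le_mul_card_image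
    intro n _
    refine le_trans ?_ (hK n)
    unfold rep
    rw [← Set.ncard_coe_finset]
    apply Set.ncard_le_ncard _ (rep_finite A h n)
    intro s hs
    rw [Finset.mem_coe, mem_filter, mem_image] at hs
    obtain ⟨⟨f, hf, rfl⟩, h4⟩ := hs
    refine ⟨card_vals f, ?_, h4⟩
    intro a ha
    obtain ⟨i, rfl⟩ := (mem_vals f a).1 ha
    exact hT _ (Fintype.mem_piFinset.1 hf i)
  have h5 : (F.image vals).image Multiset.sum = hsum h T := by
    rw [image_image]
    rfl
  rw [← hFc]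
  rw [h5] at h3
  exact h1.trans (Nat.mul_le_mul_left _ h3)

theorem step {A : Set ℕ} {L t : ℕ} {B T : Finset ℕ} (hB : Apart L B) (hTA : ∀ y ∈ T, y ∈ A)
    (hTL : ∀ y ∈ T, y ≤ L) (hTt : ∀ y ∈ T, t ≤ hits A B y) :
    ∃ T' : Finset ℕ, (∀ y ∈ T', y ∈ A) ∧ (∀ y ∈ T', ∃ u ∈ T, ∃ b ∈ insert 0 B, y = u + b) ∧
      T.card * (t + 1) ≤ T'.card := by
  classical
  set P := (T ×ˢ B).filter (fun p => p.1 + p.2 ∈ A) with hP
  refine ⟨T ∪ P.image (fun p => p.1 + p.2), ?_, ?_, ?_⟩
  · intro y hy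
    rw [mem_union, mem_image] at hy
    rcases hy with hy | ⟨p, hp, rfl⟩
    · exact hTA y hy
    · rw [hP, mem_filter] at hp
      exact hp.2
  · intro y hy
    rw [mem_union, mem_image] at hy
    rcases hy with hy | ⟨p, hp, rfl⟩
    · exact ⟨y, hy, 0, mem_insert_self _ _, rfl⟩
    · rw [hP, mem_filter, mem_product] at hp
      exact ⟨p.1, hp.1.1, p.2, mem_insert_of_mem hp.1.2, rfl⟩
  · have hinj : Set.InjOn (fun p : ℕ × ℕ => p.1 + p.2) P := by
      intro p hp q hq hpq
      rw [Finset.mem_coe, hP, mem_filter, mem_product] at hp hq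
      have h1 := hTL _ hp.1.1
      have h2 := hTL _ hq.1.1
      have hpq' : p.1 + p.2 = q.1 + q.2 := hpq
      have h3 : p.2 = q.2 := by
        rcases lt_trichotomy p.2 q.2 with h | h | h
        · have := hB.2 _ hp.1.2 _ hq.1.2 h
          omega
        · exact h
        · have := hB.2 _ hq.1.2 _ hp.1.2 h
          omega
      exact Prod.ext (by omega) h3
    have hdisj : Disjoint T (P.image (fun p => p.1 + p.2)) := by
      rw [Finset.disjoint_left]
      intro y hy hy2
      obtain ⟨p, hp, hpy⟩ := mem_image.1 hy2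
      rw [hP, mem_filter, mem_product] at hp
      have h1 := hTL _ hy
      have h2 := hB.1 _ hp.1.2
      omega
    rw [card_union_of_disjoint hdisj, card_image_of_injOn hinj]
    have h1 : T.card * t ≤ P.card := by
      have h2 : P.card = ∑ y ∈ T, hits A B y := by
        rw [hP, card_filter, sum_product]
        apply sum_congr rfl
        intro y _
        unfold hits
        rw [card_filter]
      rw [h2]
      calc T.card * t = ∑ _y ∈ T, t := by rw [sum_const, smul_eq_mul]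
        _ ≤ ∑ y ∈ T, hits A B y := sum_le_sum hTt
    linarith [Nat.mul_succ T.card t]

theorem hsum_card {h : ℕ} {T T' B : Finset ℕ} (hT : ∀ y ∈ T', ∃ u ∈ T, ∃ b ∈ B, y = u + b) :
    (hsum h T').card ≤ (hsum h T).card * (hsum h B).card := by
  classical
  have h1 : hsum h T' ⊆ image₂ (· + ·) (hsum h T) (hsum h B) := by
    intro n hn
    obtain ⟨f, hf, rfl⟩ := mem_image.1 hn
    rw [Fintype.mem_piFinset] at hf
    choose u hu b hb hub using fun i => hT (f i) (hf i)
    rw [mem_image₂]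
    refine ⟨∑ i, u i, mem_image.2 ⟨u, Fintype.mem_piFinset.2 hu, rfl⟩,
      ∑ i, b i, mem_image.2 ⟨b, Fintype.mem_piFinset.2 hb, rfl⟩, ?_⟩
    rw [← sum_add_distrib]
    exact sum_congr rfl fun i _ => (hub i).symm
  exact (card_le_card h1).trans (card_image₂_le _ _ _)

theorem grow {A : Set ℕ} {h L t : ℕ} {ρ : ℝ} (hρ : 1 < ρ) {i : ℕ} {B T : Finset ℕ} (hB : Apart L B)
    (hTA : ∀ y ∈ T, y ∈ A) (hTL : ∀ y ∈ T, y ≤ L) (hTt : ∀ y ∈ T, t ≤ hits A B y)
    (hr : ρ * (hsum h (insert 0 B)).card ≤ ((t : ℝ) + 1) ^ h)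
    (hi : ρ ^ i * (hsum h T).card ≤ (T.card : ℝ) ^ h) :
    ∃ T' : Finset ℕ, (T.Nonempty → T'.Nonempty) ∧ (∀ y ∈ T', y ∈ A) ∧
      (∀ y ∈ T', ∃ u ∈ T, ∃ b ∈ insert 0 B, y = u + b) ∧
      ρ ^ (i + 1) * (hsum h T').card ≤ (T'.card : ℝ) ^ h := by
  obtain ⟨T', h1, h2, h3⟩ := step hB hTA hTL hTt
  refine ⟨T', ?_, h1, h2, ?_⟩
  · intro hT
    rw [← card_pos] at hT ⊢
    have : 1 * 1 ≤ T.card * (t + 1) := Nat.mul_le_mul hT (by omega)
    omega
  · have hρ0 : 0 ≤ ρ := by linarith
    have h4 : ((hsum h T').card : ℝ) ≤ (hsum h T).card * (hsum h (insert 0 B)).card := by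
      exact_mod_cast hsum_card h2
    have h5 : (T.card : ℝ) * ((t : ℝ) + 1) ≤ T'.card := by exact_mod_cast h3
    calc ρ ^ (i + 1) * (hsum h T').card
        ≤ ρ ^ (i + 1) * ((hsum h T).card * (hsum h (insert 0 B)).card) :=
          mul_le_mul_of_nonneg_left h4 (by positivity)
      _ = (ρ ^ i * (hsum h T).card) * (ρ * (hsum h (insert 0 B)).card) := by ring
      _ ≤ (T.card : ℝ) ^ h * ((t : ℝ) + 1) ^ h := by
          apply mul_le_mul hi hr (by positivity) (by positivity)
      _ = ((T.card : ℝ) * ((t : ℝ) + 1)) ^ h := by rw [mul_pow]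
      _ ≤ (T'.card : ℝ) ^ h := pow_le_pow_left₀ (by positivity) h5 h

theorem hsum_pos {h : ℕ} {T : Finset ℕ} (hT : T.Nonempty) : 0 < (hsum h T).card := by
  rw [card_pos]
  obtain ⟨x, hx⟩ := hT
  exact ⟨∑ _i : Fin h, x, mem_image.2 ⟨fun _ => x, Fintype.mem_piFinset.2 fun _ => hx, rfl⟩⟩

theorem hsum_singleton (h x : ℕ) : (hsum h {x}).card = 1 := by
  rw [card_eq_one]
  refine ⟨∑ _i : Fin h, x, ?_⟩
  ext n
  rw [mem_singleton]
  constructor
  · intro hn
    obtain ⟨f, hf, rfl⟩ := mem_image.1 hn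
    rw [Fintype.mem_piFinset] at hf
    exact sum_congr rfl fun i _ => mem_singleton.1 (hf i)
  · rintro rfl
    exact mem_image.2 ⟨fun _ => x, Fintype.mem_piFinset.2 fun _ => mem_singleton_self x, rfl⟩

/-- bounded representation functions do not allow large ratios -/
theorem ratio_le {A : Set ℕ} {h K : ℕ} (hK : ∀ n, rep A h n ≤ K) {ρ : ℝ} {k : ℕ} {T : Finset ℕ}
    (hT : T.Nonempty) (hTA : ∀ y ∈ T, y ∈ A) (hi : ρ ^ k * (hsum h T).card ≤ (T.card : ℝ) ^ h) :
    ρ ^ k ≤ (h : ℝ) ^ h * K := by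
  have h1 : (T.card : ℝ) ^ h ≤ (h : ℝ) ^ h * (K * (hsum h T).card) := by
    exact_mod_cast pig hK T hTA
  have h2 : (0 : ℝ) < (hsum h T).card := by exact_mod_cast hsum_pos hT
  have h3 : ρ ^ k * (hsum h T).card ≤ ((h : ℝ) ^ h * K) * (hsum h T).card := by
    refine (hi.trans h1).trans (le_of_eq (by ring))
  exact le_of_mul_le_mul_right h3 h2

theorem exact_rec {A : Set ℕ} {h : ℕ} {ρ : ℝ} (hρ : 1 < ρ) (hA : A.Nonempty)
    (H : ∀ L₀ : ℕ, ∃ L, L₀ ≤ L ∧ ∃ (B : Finset ℕ) (t : ℕ), Apart L B ∧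
      ρ * (hsum h (insert 0 B)).card ≤ ((t : ℝ) + 1) ^ h ∧ ∀ a ∈ A, a ≤ L → t ≤ hits A B a) :
    ∀ K, ∃ n, K < rep A h n := by
  intro K
  by_contra hcon
  push Not at hcon
  have key : ∀ k : ℕ, ∃ T : Finset ℕ, T.Nonempty ∧ (∀ y ∈ T, y ∈ A) ∧
      ρ ^ k * (hsum h T).card ≤ (T.card : ℝ) ^ h := by
    intro k
    induction k with
    | zero =>
      obtain ⟨x, hx⟩ := hA
      refine ⟨{x}, singleton_nonempty x, fun y hy => by rw [mem_singleton.1 hy]; exact hx, ?_⟩
      rw [hsum_singleton, card_singleton]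
      simp
    | succ k ih =>
      obtain ⟨T, h1, h2, h3⟩ := ih
      obtain ⟨L, hL, B, t, h4, h5, h6⟩ := H (T.sup id)
      have hTL : ∀ y ∈ T, y ≤ L := fun y hy => (le_sup (f := id) hy).trans hL
      obtain ⟨T', h7, h8, _, h9⟩ := grow hρ h4 h2 hTL (fun y hy => h6 y (h2 y hy) (hTL y hy)) h5 h3
      exact ⟨T', h7 h1, h8, h9⟩
  obtain ⟨k, hk⟩ := pow_unbounded_of_one_lt ((h : ℝ) ^ h * K) hρ
  obtain ⟨T, h1, h2, h3⟩ := key k
  exact absurd (ratio_le hcon h1 h2 h3) (not_le.2 hk)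

theorem cnt_pow_le {A : Set ℕ} {h K : ℕ} (hK : ∀ n, rep A h n ≤ K) (N : ℕ) :
    cnt A N ^ h ≤ h ^ h * (K * (h * N + 1)) := by
  classical
  unfold cnt
  refine (pig hK _ ?_).trans ?_
  · intro a ha
    exact (mem_filter.1 ha).2
  · refine Nat.mul_le_mul_left _ (Nat.mul_le_mul_left _ ?_)
    refine (card_le_card (t := range (h * N + 1)) ?_).trans (by rw [card_range])
    intro n hn
    obtain ⟨f, hf, rfl⟩ := mem_image.1 hn
    rw [Fintype.mem_piFinset] at hf
    rw [mem_range]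
    have h1 : ∑ i : Fin h, f i ≤ ∑ _i : Fin h, N := sum_le_sum fun i _ => by
      have := mem_range.1 (mem_filter.1 (hf i)).1
      omega
    rw [sum_const, card_univ, Fintype.card_fin, smul_eq_mul] at h1
    omega

theorem cnt_mono (A : Set ℕ) {M N : ℕ} (h : M ≤ N) : cnt A M ≤ cnt A N := by
  classical
  unfold cnt
  apply card_le_card
  intro x hx
  rw [mem_filter, mem_range] at hx ⊢
  exact ⟨by omega, hx.2⟩

theorem approx_rec {A : Set ℕ} {h K : ℕ} (hh : 1 ≤ h) (hK : ∀ n, rep A h n ≤ K) {c : ℝ}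
    (hc : 0 < c) {N₀ : ℕ} (hthick : ∀ N, N₀ ≤ N → c * N ≤ (cnt A N : ℝ) ^ h) (C s : ℕ) {ρ : ℝ}
    (hρ : 1 < ρ) :
    ∃ ε : ℝ, 0 < ε ∧ ∃ M X₀ : ℕ, ∀ X, X₀ ≤ X → ∃ L, X ≤ L ∧ L ≤ M * X ∧
      ∀ (B : Finset ℕ) (t : ℕ), B.card ≤ s → Apart L B → (∀ b ∈ B, b ≤ C * L) →
        ρ * (hsum h (insert 0 B)).card ≤ ((t : ℝ) + 1) ^ h → ε * cnt A L ≤ fails A B t L := by
  classical
  obtain ⟨k, hk⟩ := pow_unbounded_of_one_lt ((h : ℝ) ^ h * K) hρ
  set W : ℝ := (h : ℝ) ^ h * (K * (h * ((C : ℝ) + 1) ^ k + 1)) / c with hW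
  have hW0 : 0 ≤ W := by positivity
  set R : ℝ := W + 1 with hR
  have hR1 : 1 ≤ R := by linarith
  set Q : ℝ := ((k : ℝ) + 1) * ((s : ℝ) + 1) ^ k with hQ
  have hQ1 : 0 < Q := by positivity
  refine ⟨1 / (2 * Q * R), by positivity, (C + 1) ^ k, max N₀ 1, ?_⟩
  intro X hX
  have hXN : N₀ ≤ X := (le_max_left _ _).trans hX
  have hX1 : 1 ≤ X := (le_max_right _ _).trans hX
  by_contra hcon
  push Not at hcon
  choose! B t hBs hBA hBC hBr hBf using hcon
  set L : ℕ → ℕ := fun i => (C + 1) ^ i * X with hL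
  have hLX : ∀ i, X ≤ L i := fun i => by
    have : 1 ≤ (C + 1) ^ i := Nat.one_le_pow _ _ (by omega)
    calc X = 1 * X := (one_mul X).symm
      _ ≤ (C + 1) ^ i * X := Nat.mul_le_mul_right _ this
  have hLk : ∀ i, i ≤ k → L i ≤ (C + 1) ^ k * X := fun i hi =>
    Nat.mul_le_mul_right _ (Nat.pow_le_pow_right (by omega) hi)
  -- the counting functions
  have hcX : c * X ≤ (cnt A X : ℝ) ^ h := hthick X hXN
  have hX1' : (1 : ℝ) ≤ X := by exact_mod_cast hX1
  have hcpos : 0 < (cnt A X : ℝ) := by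
    rcases Nat.eq_zero_or_pos (cnt A X) with h0 | h0
    · rw [h0, Nat.cast_zero, zero_pow (by omega)] at hcX
      have : 0 < c * X := by positivity
      linarith
    · exact_mod_cast h0
  have hcomp : (cnt A (L k) : ℝ) ≤ R * cnt A X := by
    have h1 : (cnt A (L k) : ℝ) ^ h ≤ (h : ℝ) ^ h * (K * (h * L k + 1)) := by
      exact_mod_cast cnt_pow_le hK (L k)
    have h2 : (L k : ℝ) = ((C : ℝ) + 1) ^ k * X := by
      simp only [hL]
      push_cast
      ring
    have h3 : (cnt A (L k) : ℝ) ^ h ≤ W * (cnt A X : ℝ) ^ h := by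
      have h4 : (h : ℝ) ^ h * (K * (h * L k + 1)) ≤
          ((h : ℝ) ^ h * (K * (h * ((C : ℝ) + 1) ^ k + 1))) * X := by
        rw [h2]
        have h5 : (h : ℝ) * (((C : ℝ) + 1) ^ k * X) + 1 ≤ (h * ((C : ℝ) + 1) ^ k + 1) * X := by
          nlinarith
        calc (h : ℝ) ^ h * (K * (h * (((C : ℝ) + 1) ^ k * X) + 1))
            ≤ (h : ℝ) ^ h * (K * ((h * ((C : ℝ) + 1) ^ k + 1) * X)) := by gcongr
          _ = _ := by ring
      have h6 : ((h : ℝ) ^ h * (K * (h * ((C : ℝ) + 1) ^ k + 1))) = W * c := by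
        rw [hW]
        field_simp
      calc (cnt A (L k) : ℝ) ^ h ≤ _ := h1
        _ ≤ _ := h4
        _ = W * (c * X) := by rw [h6]; ring
        _ ≤ W * (cnt A X : ℝ) ^ h := mul_le_mul_of_nonneg_left hcX hW0
    have h7 : (cnt A (L k) : ℝ) ^ h ≤ (R * cnt A X) ^ h := by
      rw [mul_pow]
      refine h3.trans (mul_le_mul_of_nonneg_right ?_ (by positivity))
      calc W ≤ R := by linarith
        _ = R ^ 1 := (pow_one R).symm
        _ ≤ R ^ h := pow_le_pow_right₀ hR1 hh
    exact le_of_pow_le_pow_left₀ (by omega) (by positivity) h7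
  -- the sets of the shifts
  let D : ℕ → Finset ℕ := fun i => Nat.rec {0} (fun i D => image₂ (· + ·) D (insert 0 (B (L i)))) i
  have hD0 : D 0 = {0} := rfl
  have hDs : ∀ i, D (i + 1) = image₂ (· + ·) (D i) (insert 0 (B (L i))) := fun i => rfl
  have hDle : ∀ i, i ≤ k → ∀ d ∈ D i, X + d ≤ L i := by
    intro i
    induction i with
    | zero =>
      intro _ d hd
      rw [hD0, mem_singleton] at hd
      subst hd
      simp [hL]
    | succ i ih =>
      intro hi d hd
      rw [hDs, mem_image₂] at hd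
      obtain ⟨u, hu, b, hb, rfl⟩ := hd
      have h1 := ih (by omega) u hu
      have h2 : b ≤ C * L i := by
        rcases mem_insert.1 hb with h3 | h3
        · rw [h3]; exact Nat.zero_le _
        · exact hBC (L i) (hLX i) (hLk i (by omega)) b h3
      have h3 : L (i + 1) = C * L i + L i := by
        simp only [hL]
        ring
      rw [h3]
      omega
  have hDcard : ∀ i, i ≤ k → (D i).card ≤ (s + 1) ^ i := by
    intro i
    induction i with
    | zero =>
      intro _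
      rw [hD0, card_singleton, pow_zero]
    | succ i ih =>
      intro hi
      rw [hDs]
      refine (card_image₂_le _ _ _).trans ?_
      rw [pow_succ]
      refine Nat.mul_le_mul (ih (by omega)) ?_
      refine (card_insert_le _ _).trans ?_
      have := hBs (L i) (hLX i) (hLk i (by omega))
      omega
  -- the bad elements
  let F : ℕ → Finset ℕ := fun i =>
    (range (L i + 1)).filter (fun a => a ∈ A ∧ hits A (B (L i)) a < t (L i))
  have hFc : ∀ i, i < k → ((F i).card : ℝ) < 1 / (2 * Q * R) * cnt A (L i) := by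
    intro i hi
    have := hBf (L i) (hLX i) (hLk i hi.le)
    exact this
  let Bad : Finset ℕ := (range k).biUnion fun i => image₂ (fun y d => y - d) (F i) (D i)
  have hBad : (Bad.card : ℝ) < cnt A X := by
    have h1 : (Bad.card : ℝ) ≤ ∑ i ∈ range k, ((F i).card : ℝ) * (D i).card := by
      have h2 : Bad.card ≤ ∑ i ∈ range k, (F i).card * (D i).card :=
        card_biUnion_le.trans (sum_le_sum fun i _ => card_image₂_le _ _ _)
      exact_mod_cast h2
    have h3 : ∑ i ∈ range k, ((F i).card : ℝ) * (D i).card ≤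
        ∑ _i ∈ range k, 1 / (2 * Q * R) * (R * cnt A X) * ((s : ℝ) + 1) ^ k := by
      apply sum_le_sum
      intro i hi
      have hi' := mem_range.1 hi
      have h4 : ((F i).card : ℝ) ≤ 1 / (2 * Q * R) * (R * cnt A X) := by
        refine (hFc i hi').le.trans ?_
        apply mul_le_mul_of_nonneg_left _ (by positivity)
        refine le_trans ?_ hcomp
        exact_mod_cast cnt_mono A (Nat.mul_le_mul_right X (Nat.pow_le_pow_right (by omega) hi'.le))
      have h5 : ((D i).card : ℝ) ≤ ((s : ℝ) + 1) ^ k := by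
        have h6 : (D i).card ≤ (s + 1) ^ k :=
          (hDcard i hi'.le).trans (Nat.pow_le_pow_right (by omega) hi'.le)
        exact_mod_cast h6
      exact mul_le_mul h4 h5 (by positivity) (by positivity)
    rw [sum_const, card_range, nsmul_eq_mul] at h3
    have h7 : (k : ℝ) * (1 / (2 * Q * R) * (R * cnt A X) * ((s : ℝ) + 1) ^ k) ≤ cnt A X / 2 := by
      have h8 : (k : ℝ) * ((s : ℝ) + 1) ^ k ≤ Q := by
        rw [hQ]
        apply mul_le_mul_of_nonneg_right _ (by positivity)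
        linarith
      have h9 : (k : ℝ) * (1 / (2 * Q * R) * (R * cnt A X) * ((s : ℝ) + 1) ^ k) =
          ((k : ℝ) * ((s : ℝ) + 1) ^ k) * (cnt A X / (2 * Q)) := by
        field_simp
      rw [h9]
      calc ((k : ℝ) * ((s : ℝ) + 1) ^ k) * (cnt A X / (2 * Q)) ≤ Q * (cnt A X / (2 * Q)) :=
            mul_le_mul_of_nonneg_right h8 (by positivity)
        _ = cnt A X / 2 := by field_simp
    linarith
  -- a good element
  obtain ⟨x, hxA, hxX, hxg⟩ : ∃ x ∈ A, x ≤ X ∧ x ∉ Bad := by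
    by_contra hno
    push Not at hno
    have h1 : cnt A X ≤ Bad.card := by
      unfold cnt
      apply card_le_card
      intro x hx
      rw [mem_filter, mem_range] at hx
      exact hno x hx.2 (by omega)
    have h2 : (cnt A X : ℝ) ≤ Bad.card := by exact_mod_cast h1
    linarith
  have hgood : ∀ i, i < k → ∀ d ∈ D i, x + d ∈ A → t (L i) ≤ hits A (B (L i)) (x + d) := by
    intro i hi d hd hxd
    by_contra hlt
    push Not at hlt
    apply hxg
    simp only [Bad, mem_biUnion, mem_range]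
    refine ⟨i, hi, ?_⟩
    rw [mem_image₂]
    refine ⟨x + d, ?_, d, hd, by omega⟩
    simp only [F, mem_filter, mem_range]
    have := hDle i hi.le d hd
    exact ⟨by omega, hxd, hlt⟩
  have key : ∀ i, i ≤ k → ∃ T : Finset ℕ, T.Nonempty ∧ (∀ y ∈ T, y ∈ A) ∧
      (∀ y ∈ T, ∃ d ∈ D i, y = x + d) ∧ ρ ^ i * (hsum h T).card ≤ (T.card : ℝ) ^ h := by
    intro i
    induction i with
    | zero =>
      intro _
      refine ⟨{x}, singleton_nonempty x, fun y hy => by rw [mem_singleton.1 hy]; exact hxA, ?_, ?_⟩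
      · intro y hy
        exact ⟨0, by rw [hD0]; exact mem_singleton_self 0, by rw [mem_singleton.1 hy, add_zero]⟩
      · rw [hsum_singleton, card_singleton]
        simp
    | succ i ih =>
      intro hi
      obtain ⟨T, h1, h2, h3, h4⟩ := ih (by omega)
      obtain ⟨T', h5, h6, h7, h8⟩ := grow (L := L i) (t := t (L i)) hρ
        (hBA (L i) (hLX i) (hLk i (by omega))) h2
        (fun y hy => by
          obtain ⟨d, hd, rfl⟩ := h3 y hy
          have := hDle i (by omega) d hd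
          omega)
        (fun y hy => by
          obtain ⟨d, hd, rfl⟩ := h3 y hy
          exact hgood i (by omega) d hd (h2 _ hy))
        (hBr (L i) (hLX i) (hLk i (by omega))) h4
      refine ⟨T', h5 h1, h6, ?_, h8⟩
      intro y hy
      obtain ⟨u, hu, b, hb, rfl⟩ := h7 y hy
      obtain ⟨d, hd, rfl⟩ := h3 u hu
      refine ⟨d + b, ?_, by omega⟩
      rw [hDs]
      exact mem_image₂_of_mem hd hb
  obtain ⟨T, h1, h2, _, h4⟩ := key k le_rfl
  exact absurd (ratio_le hK h1 h2 h4) (not_le.2 hk)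

theorem exists_fun {A : Set ℕ} {s : Multiset ℕ} (hs : ∀ a ∈ s, a ∈ A) :
    ∃ f : Fin (Multiset.card s) → ℕ, (∀ i, f i ∈ s) ∧ ∑ i, f i = s.sum := by
  induction s using Quotient.inductionOn with
  | h l =>
    refine ⟨fun i => l.get i, fun i => ?_, ?_⟩
    · exact List.get_mem l i
    · exact Fin.sum_univ_getElem l

theorem thick_of_basis {A : Set ℕ} {h : ℕ} (hA : IsBasis A h) :
    ∃ N₀ : ℕ, ∀ N, N₀ ≤ N → (1 / 2 : ℝ) * N ≤ (cnt A N : ℝ) ^ h := by
  classical
  obtain ⟨n₀, hn₀⟩ := hA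
  refine ⟨2 * n₀, fun N hN => ?_⟩
  set T : Finset ℕ := (range (N + 1)).filter (· ∈ A) with hT
  have h1 : Ico n₀ (N + 1) ⊆ hsum h T := by
    intro n hn
    rw [mem_Ico] at hn
    obtain ⟨s, hs1, hs2, hs3⟩ := hn₀ n hn.1
    obtain ⟨f, hf1, hf2⟩ := exists_fun hs2
    subst hs1
    refine mem_image.2 ⟨f, Fintype.mem_piFinset.2 fun i => ?_, hf2.trans hs3⟩
    rw [hT, mem_filter, mem_range]
    have h2 : f i ≤ n := by
      rw [← hs3]
      exact Multiset.single_le_sum (fun x _ => Nat.zero_le x) _ (hf1 i)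
    exact ⟨by omega, hs2 _ (hf1 i)⟩
  have h2 : (hsum h T).card ≤ T.card ^ h := by
    refine card_image_le.trans ?_
    rw [Fintype.card_piFinset, prod_const, card_univ, Fintype.card_fin]
  have h3 := (card_le_card h1).trans h2
  rw [Nat.card_Ico] at h3
  have h4 : N ≤ 2 * (cnt A N) ^ h := by
    have : T.card = cnt A N := rfl
    rw [this] at h3
    omega
  have h5 : (N : ℝ) ≤ 2 * (cnt A N : ℝ) ^ h := by exact_mod_cast h4
  linarith

/-- the number of the sums of `h` elements of a set of at most `s + 1` elements -/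
theorem hsum_card_le {h s : ℕ} {B : Finset ℕ} (hB : B.card ≤ s + 1) :
    (hsum h B).card ≤ (h + s).choose s := by
  classical
  have h1 : hsum h B ⊆ (univ : Finset (Sym {x // x ∈ B} h)).image
      (fun m : Sym {x // x ∈ B} h => (m.1.map Subtype.val).sum) := by
    intro n hn
    obtain ⟨f, hf, rfl⟩ := mem_image.1 hn
    rw [Fintype.mem_piFinset] at hf
    refine mem_image.2 ⟨⟨(univ : Finset (Fin h)).val.map (fun i => (⟨f i, hf i⟩ : {x // x ∈ B})),
      by simp⟩, mem_univ _, ?_⟩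
    simp only [Multiset.map_map]
    rfl
  refine (card_le_card h1).trans (card_image_le.trans ?_)
  rw [card_univ, Sym.card_sym_eq_choose, Fintype.card_coe]
  have h2 : (B.card + h - 1).choose h ≤ (h + s).choose h := Nat.choose_le_choose _ (by omega)
  refine h2.trans (le_of_eq ?_)
  rw [Nat.choose_symm_add]

/-- `A` is thick for `h`: `|A ∩ [0, N]| ≥ (c N)^{1/h}` for some `c > 0` and all large `N`. -/
def Thick (A : Set ℕ) (h : ℕ) : Prop :=
  ∃ c : ℝ, 0 < c ∧ ∃ N₀ : ℕ, ∀ N, N₀ ≤ N → c * N ≤ (cnt A N : ℝ) ^ h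

/-- `r_{A,h}` is bounded. -/
def Bounded (A : Set ℕ) (h : ℕ) : Prop := ∃ K, ∀ n, rep A h n ≤ K

open Classical in
/-- The number of the elements `a ≤ L` of `A` for which no sum `a + b`, `b ∈ B`, belongs to `A`. -/
noncomputable def misses (A : Set ℕ) (B : Finset ℕ) (L : ℕ) : ℕ :=
  ((range (L + 1)).filter (fun a => a ∈ A ∧ ∀ b ∈ B, a + b ∉ A)).card

theorem one_le_hits {A : Set ℕ} {B : Finset ℕ} {a : ℕ} : 1 ≤ hits A B a ↔ ∃ b ∈ B, a + b ∈ A := by
  classical
  unfold hits
  rw [Nat.one_le_iff_ne_zero, Finset.card_ne_zero]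
  constructor
  · rintro ⟨b, hb⟩
    rw [mem_filter] at hb
    exact ⟨b, hb.1, hb.2⟩
  · rintro ⟨b, hb, hb2⟩
    exact ⟨b, mem_filter.2 ⟨hb, hb2⟩⟩

theorem fails_one (A : Set ℕ) (B : Finset ℕ) (L : ℕ) : fails A B 1 L = misses A B L := by
  classical
  unfold fails misses
  congr 1
  apply filter_congr
  intro a _
  rw [← not_le, one_le_hits]
  push Not
  rfl

theorem ratio_one {h s : ℕ} (hs : (h + s).choose s < 2 ^ h) :
    ∃ ρ : ℝ, 1 < ρ ∧ ∀ B : Finset ℕ, B.card ≤ s →
      ρ * (hsum h (insert 0 B)).card ≤ (((1 : ℕ) : ℝ) + 1) ^ h := by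
  have h0 : (0 : ℝ) < (h + s).choose s := by
    exact_mod_cast Nat.choose_pos (by omega)
  refine ⟨2 ^ h / (h + s).choose s, ?_, ?_⟩
  · rw [one_lt_div h0]
    exact_mod_cast hs
  · intro B hB
    have h1 : (hsum h (insert 0 B)).card ≤ (h + s).choose s :=
      hsum_card_le ((card_insert_le _ _).trans (by omega))
    have h2 : ((hsum h (insert 0 B)).card : ℝ) ≤ (h + s).choose s := by exact_mod_cast h1
    calc 2 ^ h / ((h + s).choose s : ℝ) * (hsum h (insert 0 B)).card
        ≤ 2 ^ h / ((h + s).choose s : ℝ) * (h + s).choose s :=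
          mul_le_mul_of_nonneg_left h2 (by positivity)
      _ = 2 ^ h := by field_simp
      _ = (((1 : ℕ) : ℝ) + 1) ^ h := by norm_num

/-- **Translate recurrence.** Let `h ≥ 2` and `A ⊆ ℕ`.
(0) Asymptotic bases of order `h` are thick.
(1) If `A ≠ ∅` and `r_{A,h}` is bounded then for all `ρ > 1` and all large `L`, and all `B`, `t` with
`Apart L B` and `ρ |h(B ∪ {0})| ≤ (t + 1)^h`, some `a ≤ L` of `A` has less than `t` of the sums
`a + b` (`b ∈ B`) in `A`.
(2) If `A` is thick and `r_{A,h}` is bounded then for all `ρ > 1`, `C`, `s` there are `ε > 0`, `M`, `X₀`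
such that each `[X, M X]` with `X ≥ X₀` contains an `L` such that for all `B`, `t` with `|B| ≤ s`,
`Apart L B`, `B ⊆ [0, C L]` and `ρ |h(B ∪ {0})| ≤ (t + 1)^h` at least `ε |A ∩ [0, L]|` elements `a ≤ L`
of `A` have less than `t` of the sums `a + b` (`b ∈ B`) in `A`.
(3), (4) The case `t = 1`: if `binom(h + s, s) < 2^h` (for instance `s = 1`) then (1) and (2) hold for
all `B` with `|B| ≤ s`, with the condition that no sum `a + b` (`b ∈ B`) belongs to `A`. -/
theorem result (h : ℕ) (hh : 2 ≤ h) (A : Set ℕ) :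
    (IsBasis A h → Thick A h) ∧
    (∀ ρ : ℝ, 1 < ρ → A.Nonempty → Bounded A h → ∃ L₀ : ℕ, ∀ L, L₀ ≤ L →
      ∀ (B : Finset ℕ) (t : ℕ), Apart L B → ρ * (hsum h (insert 0 B)).card ≤ ((t : ℝ) + 1) ^ h →
        0 < fails A B t L) ∧
    (∀ (ρ : ℝ) (C s : ℕ), 1 < ρ → Thick A h → Bounded A h →
      ∃ ε : ℝ, 0 < ε ∧ ∃ M X₀ : ℕ, ∀ X, X₀ ≤ X → ∃ L, X ≤ L ∧ L ≤ M * X ∧
        ∀ (B : Finset ℕ) (t : ℕ), B.card ≤ s → Apart L B → (∀ b ∈ B, b ≤ C * L) →
          ρ * (hsum h (insert 0 B)).card ≤ ((t : ℝ) + 1) ^ h → ε * cnt A L ≤ fails A B t L) ∧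
    (∀ s : ℕ, (h + s).choose s < 2 ^ h → A.Nonempty → Bounded A h →
      ∃ L₀ : ℕ, ∀ L, L₀ ≤ L → ∀ B : Finset ℕ, B.card ≤ s → Apart L B → 0 < misses A B L) ∧
    (∀ C s : ℕ, (h + s).choose s < 2 ^ h → Thick A h → Bounded A h →
      ∃ ε : ℝ, 0 < ε ∧ ∃ M X₀ : ℕ, ∀ X, X₀ ≤ X → ∃ L, X ≤ L ∧ L ≤ M * X ∧
        ∀ B : Finset ℕ, B.card ≤ s → Apart L B → (∀ b ∈ B, b ≤ C * L) →
          ε * cnt A L ≤ misses A B L) := by
  classical
  have e : ∀ ρ : ℝ, 1 < ρ → A.Nonempty → Bounded A h → ∃ L₀ : ℕ, ∀ L, L₀ ≤ L →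
      ∀ (B : Finset ℕ) (t : ℕ), Apart L B → ρ * (hsum h (insert 0 B)).card ≤ ((t : ℝ) + 1) ^ h →
        0 < fails A B t L := by
    rintro ρ hρ hA ⟨K, hK⟩
    by_contra hcon
    push Not at hcon
    obtain ⟨n, hn⟩ := exact_rec (A := A) (h := h) hρ hA (by
      intro L₀
      obtain ⟨L, hL, B, t, h1, h2, h3⟩ := hcon L₀
      refine ⟨L, hL, B, t, h1, h2, ?_⟩
      intro a ha haL
      by_contra hlt
      have h4 : a ∈ (range (L + 1)).filter (fun a => a ∈ A ∧ hits A B a < t) :=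
        mem_filter.2 ⟨mem_range.2 (by omega), ha, by omega⟩
      have h5 : 0 < fails A B t L := card_pos.2 ⟨a, h4⟩
      omega) K
    exact absurd (hK n) (by omega)
  have f : ∀ (ρ : ℝ) (C s : ℕ), 1 < ρ → Thick A h → Bounded A h →
      ∃ ε : ℝ, 0 < ε ∧ ∃ M X₀ : ℕ, ∀ X, X₀ ≤ X → ∃ L, X ≤ L ∧ L ≤ M * X ∧
        ∀ (B : Finset ℕ) (t : ℕ), B.card ≤ s → Apart L B → (∀ b ∈ B, b ≤ C * L) →
          ρ * (hsum h (insert 0 B)).card ≤ ((t : ℝ) + 1) ^ h → ε * cnt A L ≤ fails A B t L := by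
    rintro ρ C s hρ ⟨c, hc, N₀, hth⟩ ⟨K, hK⟩
    exact approx_rec (by omega) hK hc hth C s hρ
  refine ⟨?_, e, f, ?_, ?_⟩
  · intro hA
    obtain ⟨N₀, hN⟩ := thick_of_basis hA
    exact ⟨1 / 2, by norm_num, N₀, hN⟩
  · intro s hs hA hb
    obtain ⟨ρ, hρ, h1⟩ := ratio_one hs
    obtain ⟨L₀, h2⟩ := e ρ hρ hA hb
    refine ⟨L₀, fun L hL B hB hBA => ?_⟩
    rw [← fails_one]
    exact h2 L hL B 1 hBA (h1 B hB)
  · intro C s hs hA hb
    obtain ⟨ρ, hρ, h1⟩ := ratio_one hs
    obtain ⟨ε, hε, M, X₀, h2⟩ := f ρ C s hρ hA hb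
    refine ⟨ε, hε, M, X₀, fun X hX => ?_⟩
    obtain ⟨L, hL1, hL2, h3⟩ := h2 X hX
    refine ⟨L, hL1, hL2, fun B hB hBA hBC => ?_⟩
    rw [← fails_one]
    exact h3 B 1 hB hBA hBC (h1 B hB)

end Pool.Agent.Results.MP_d5a1e1_nt.TranslateRecurrence
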